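import Pool.Agent.Q73.CM.Coniv2
import Pool.Agent.H485R3.Hodge.LevelConv

/-!
# Coniveau on products of varieties with complex multiplication

Let `X i`, `i ∈ I`, be finitely many smooth projective complex varieties whose rational cohomology is a
sum of Hodge structures with complex multiplication: the `j`-th piece, `j ∈ J`, is a number field
`E j` (for example a CM field, or `ℚ` for algebraic classes), it belongs to the cohomology in degree
`w j` of the variety `X (γ j)`, and the part of `E j ⊗ ℂ` belonging to the embedding `σ` has a type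
`(p, q)` with `p + q = w j` and `p - q = u j σ`. Examples: abelian varieties of CM type, Fermat varieties,
K3 surfaces with complex multiplication (for the transcendental piece of a K3 surface `u` is `2` at one
embedding, `-2` at its complex conjugate and `0` at all the others).

The rational cohomology of products of the `X i` (with repetitions) is a sum of spaces of
`ℚ`-multilinear forms in variables `x k ∈ E (t k)`; the variables with `γ (t k) = i` belong to the
factors `X i`, and the degree is `d = ∑ w (t k)`. A class lies in a rational sub-Hodge structure of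
`H^d` with all types `(p, q)`, `p, q ≥ c`, exactly if `TypesGE c` holds; for `c = 1` these are the
sub-Hodge structures without holomorphic `d`-forms. The generalised Hodge conjecture says that such
classes have coniveau at least `c` (vanish outside a closed subset of codimension `c`).

`F i` is the field generated by the images of the fields `E j`, `γ j = i`, under their embeddings with
`u ≠ 0`. We assume that these fields are linearly disjoint: the degree of their compositum is the
product of their degrees.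
-/

set_option autoImplicit false

namespace Pool.Agent.Results.MP_1c689d_ag.CMProducts

section defs

variable {J : Type} {E : J → Type} [∀ j, Field (E j)] [∀ j, NumberField (E j)]

/-- the complex conjugate of an embedding -/
noncomputable def conj {K : Type} [Field K] [NumberField K] (σ : K →ₐ[ℚ] ℂ) : K →ₐ[ℚ] ℂ :=
  ((Complex.conjAe.restrictScalars ℚ : ℂ ≃ₐ[ℚ] ℂ) : ℂ →ₐ[ℚ] ℂ).comp σ

/-- `p - q = u j σ` for a type `(p, q)` with `p, q ≥ 0` and `p + q = w j`, symmetric under complex
conjugation -/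
structure IsTypes (u : ∀ j, (E j →ₐ[ℚ] ℂ) → ℤ) (w : J → ℕ) : Prop where
  conj : ∀ j σ, u j (conj σ) = - u j σ
  parity : ∀ j σ, Even ((w j : ℤ) - u j σ)
  bound : ∀ j σ, |u j σ| ≤ (w j : ℤ)

/-- the field generated by the embeddings with `u ≠ 0` of the pieces of `X i` -/
noncomputable def field {I : Type} (u : ∀ j, (E j →ₐ[ℚ] ℂ) → ℤ) (γ : J → I) (i : I) :
    IntermediateField ℚ ℂ :=
  IntermediateField.adjoin ℚ {z | ∃ j, γ j = i ∧ ∃ σ : E j →ₐ[ℚ] ℂ, u j σ ≠ 0 ∧ z ∈ σ.fieldRange}

/-- rational classes: multilinear forms in variables `x k ∈ E (t k)` -/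
abbrev Form (E : J → Type) [∀ j, Field (E j)] [∀ j, NumberField (E j)] {κ : Type} (t : κ → J) :
    Type :=
  MultilinearMap ℚ (fun k => E (t k)) ℚ

/-- the complexification of `φ` is the combination with coefficients `a` of the forms
`x ↦ ∏ σ k (x k)` -/
def Expands {κ : Type} [Fintype κ] [DecidableEq κ] (t : κ → J) (φ : Form E t)
    (a : (∀ k, E (t k) →ₐ[ℚ] ℂ) → ℂ) : Prop :=
  ∀ x, ((φ x : ℚ) : ℂ) = ∑ σ, a σ * ∏ k, σ k (x k)

/-- a rational form (a class of degree `∑ w (t k)`) is a combination of classes of types `(p, q)`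
with `p, q ≥ c` -/
def TypesGE (u : ∀ j, (E j →ₐ[ℚ] ℂ) → ℤ) (w : J → ℕ) {κ : Type} [Fintype κ] [DecidableEq κ]
    (t : κ → J) (c : ℕ) (φ : Form E t) : Prop :=
  ∃ a, Expands t φ a ∧ ∀ σ, a σ ≠ 0 → |∑ k, u (t k) (σ k)| + 2 * c ≤ ∑ k, (w (t k) : ℤ)

/-- a rational form is a combination of classes of types `(p, q)` with `|p - q| ≤ l` -/
def LevelLE (u : ∀ j, (E j →ₐ[ℚ] ℂ) → ℤ) {κ : Type} [Fintype κ] [DecidableEq κ]
    (t : κ → J) (l : ℕ) (φ : Form E t) : Prop :=
  ∃ a, Expands t φ a ∧ ∀ σ, a σ ≠ 0 → |∑ k, u (t k) (σ k)| ≤ l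

/-- a linear form which is a Hodge class (all its types are `(p, p)`) -/
def IsHodgeLinear {K : Type} [Field K] [NumberField K] (u : (K →ₐ[ℚ] ℂ) → ℤ) (f : K →ₗ[ℚ] ℚ) :
    Prop :=
  ∃ a : (K →ₐ[ℚ] ℂ) → ℂ, (∀ x, ((f x : ℚ) : ℂ) = ∑ σ, a σ * σ x) ∧ ∀ σ, a σ ≠ 0 → u σ = 0

/-- the fields `F i` are linearly disjoint -/
def Disjoint {I : Type} [Fintype I] (u : ∀ j, (E j →ₐ[ℚ] ℂ) → ℤ) (γ : J → I) : Prop :=
  Module.finrank ℚ (⨆ i, field u γ i : IntermediateField ℚ ℂ) =
    ∏ i, Module.finrank ℚ (field u γ i)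

/-- `ψ` is the external product of forms `φ i` in the variables belonging to `X i` -/
def IsExternal {I : Type} [Fintype I] (γ : J → I) {n : ℕ} (t : Fin n → J) (ψ : Form E t)
    (φ : ∀ i, Form E (fun k : {k // γ (t k) = i} => t k)) : Prop :=
  ∀ v, ψ v = ∏ i, φ i (fun k => v k)

/-- external products over `i ∈ I` of classes on the factors `X i` with types `p, q ≥ b i`, where
`∑ b i = c` -/
def external {I : Type} [Fintype I] [DecidableEq I] (u : ∀ j, (E j →ₐ[ℚ] ℂ) → ℤ) (w : J → ℕ)
    (γ : J → I) {n : ℕ} (t : Fin n → J) (c : ℕ) : Set (Form E t) :=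
  {ψ | ∃ (b : I → ℕ) (φ : ∀ i, Form E (fun k : {k // γ (t k) = i} => t k)),
    ∑ i, b i = c ∧ (∀ i, TypesGE u w _ (b i) (φ i)) ∧ IsExternal γ t ψ φ}

/-- products of linear forms in the single variables, one of them being a Hodge class in degree `2`
-/
def divisorial (u : ∀ j, (E j →ₐ[ℚ] ℂ) → ℤ) (w : J → ℕ) {n : ℕ} (t : Fin n → J) :
    Set (Form E t) :=
  {ψ | ∃ (a : ℚ) (f : ∀ k, E (t k) →ₗ[ℚ] ℚ), (∃ k, w (t k) = 2 ∧ IsHodgeLinear (u (t k)) (f k)) ∧
    ∀ v, ψ v = a * ∏ k, f k (v k)}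

/-- external products over `i ∈ I` of classes with types `|p - q| ≤ m i`, where `∑ m i ≤ l` -/
def externalLevel {I : Type} [Fintype I] [DecidableEq I] (u : ∀ j, (E j →ₐ[ℚ] ℂ) → ℤ)
    (γ : J → I) {n : ℕ} (t : Fin n → J) (l : ℕ) : Set (Form E t) :=
  {ψ | ∃ (m : I → ℕ) (φ : ∀ i, Form E (fun k : {k // γ (t k) = i} => t k)),
    ∑ i, m i ≤ l ∧ (∀ i, LevelLE u _ (m i) (φ i)) ∧ IsExternal γ t ψ φ}

/-- the conclusions (1) and (2) -/
def Reduces {I : Type} [Fintype I] [DecidableEq I] (u : ∀ j, (E j →ₐ[ℚ] ℂ) → ℤ) (w : J → ℕ)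
    (γ : J → I) {n : ℕ} (t : Fin n → J) : Prop :=
  (∀ c φ, TypesGE u w t c φ → φ ∈ Submodule.span ℚ (external u w γ t c)) ∧
  ((Function.Injective fun k => γ (t k)) → (∀ k, w (t k) ≤ 2) → ∀ φ, TypesGE u w t 1 φ →
    φ ∈ Submodule.span ℚ (divisorial u w t))

end defs

open Classical in
/-- the types of the transcendental piece of a K3 surface with complex multiplication -/
noncomputable def k3 {K : Type} [Field K] [NumberField K] (σ₀ : K →ₐ[ℚ] ℂ) (σ : K →ₐ[ℚ] ℂ) : ℤ :=
  if σ = σ₀ then 2 else if σ = conj σ₀ then -2 else 0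

lemma k3_eq {K : Type} [Field K] [NumberField K] (σ₀ : K →ₐ[ℚ] ℂ) :
    k3 σ₀ = Pool.Agent.H485R3.Hodge.hodgeDiff σ₀ ((2 : ℕ) : ℤ) := rfl

/-- **Coniveau on products of varieties with complex multiplication.** -/
theorem result :
    -- (1) the generalised Hodge conjecture in all coniveaus reduces to the factors,
    -- (2) coniveau one for products of different curves and surfaces
    (∀ (I J : Type) [Fintype I] [DecidableEq I] [Finite J] (E : J → Type) [∀ j, Field (E j)]
      [∀ j, NumberField (E j)] (u : ∀ j, (E j →ₐ[ℚ] ℂ) → ℤ) (w : J → ℕ) (γ : J → I),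
      IsTypes u w → Disjoint u γ → ∀ (n : ℕ) (t : Fin n → J), Reduces u w γ t) ∧
    -- (3) the condition on the fields is necessary for K3 surfaces
    (∀ (I : Type) [Fintype I] [DecidableEq I] (E : I → Type) [∀ i, Field (E i)]
      [∀ i, NumberField (E i)] (σ₀ : ∀ i, E i →ₐ[ℚ] ℂ),
      Module.finrank ℚ (⨆ i, (σ₀ i).fieldRange : IntermediateField ℚ ℂ) ≠
        ∏ i, Module.finrank ℚ (σ₀ i).fieldRange →
      ∃ (n : ℕ) (t : Fin n → I) (l : ℕ) (φ : Form E t), LevelLE (fun i => k3 (σ₀ i)) t l φ ∧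
        φ ∉ Submodule.span ℚ (externalLevel (fun i => k3 (σ₀ i)) id t l)) := by
  refine ⟨?_, ?_⟩
  · intro I J _ _ _ E _ _ u w γ hu hdis n t
    refine ⟨fun c φ hφ => ?_, fun ht hw φ hφ => ?_⟩
    · exact Pool.Agent.Q73.CM.con_span u w hu.conj hu.parity hu.bound γ hdis t c φ hφ
    · obtain ⟨a, h1, h2⟩ := hφ
      exact Pool.Agent.Q73.CM.surfaces u w hu.conj hu.parity γ hdis t ht hw φ
        ⟨a, h1, fun σ hσ => by have := h2 σ hσ; push_cast at this; linarith⟩
  · intro I _ _ E _ _ σ₀ hnd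
    obtain ⟨n, t, l, φ, h1, h2⟩ := Pool.Agent.H485R3.Hodge.exists_small_level σ₀ (fun _ => 2)
      (fun _ => by norm_num) hnd
    exact ⟨n, t, l, φ, h1, h2⟩

end Pool.Agent.Results.MP_1c689d_ag.CMProducts
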