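import Mathlib
import Pool.Agent.Q63.NC.Coniveau

/-!
# The coniveau of elementary abelian 2-coverings of products of projective spaces

Let `Y` be a smooth projective complex variety with an action of `G = (ℤ/2)^k`, birational to a covering with the
group `G` of a product `B` of projective spaces, branched over smooth hypersurfaces, of any multidegrees, whose union
has normal crossings. Then the conjecture is true for `Y` and all `l`: if `h^{l,0}(Y) = 0` then
the restriction of `H^l(Y, ℚ)` to a dense open subset is zero.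

More generally, if an element `Γ` of the group ring `ℚ[G]` acts as zero on `H^{l,0}(Y)` then all classes
`Γ x`, `x ∈ H^l(Y)`, vanish on a dense open subset. This contains the conjecture for all varieties birational to a quotient
`Y / H`, `H ≤ G`, and for the Hodge substructures of `H^l(Y)` defined by `G`.
-/

set_option autoImplicit false

namespace Pool.Agent.Results.MP_1c689d_ag.DoubleCoverTowers

open Multiplicative Pool.Agent.Q63.NC

theorem result {s r : ℕ} (n : Fin r → ℕ) (D : Fin s → Fin r → ℕ)
    (Λ : AddSubgroup (Fin s → ZMod 2)) (ψ : AddChar (ZMod 2) ℂ) (hψ : ψ.IsPrimitive) {V W : ℕ → Type}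
    [∀ l, AddCommGroup (V l)] [∀ l, Module ℂ (V l)] [∀ l, AddCommGroup (W l)] [∀ l, Module ℂ (W l)]
    (ρ : ∀ l, Representation ℂ (Multiplicative (Fin s → ZMod 2)) (V l))
    (τ : ∀ l, Representation ℂ (Multiplicative (Fin s → ZMod 2)) (W l))
    (hY : ConiveauCover n D Λ ψ ρ τ) (l : ℕ) :
    ((∀ w : W l, w = 0) → ∀ v : V l, v = 0) ∧
    ∀ c : (Fin s → ZMod 2) → ℚ, (∀ w : W l, ∑ h, (c h : ℂ) • τ l (ofAdd h) w = 0) →
      ∀ v : V l, ∑ h, (c h : ℂ) • ρ l (ofAdd h) v = 0 := by
  refine ⟨fun hW v => ?_, fun c hc v => coniveau hψ hY l c hc v⟩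
  have h := coniveau hψ hY l (fun h => if h = 0 then 1 else 0) (fun w => hW _) v
  have h0 : ρ l (ofAdd (0 : Fin s → ZMod 2)) v = v := by
    have : ofAdd (0 : Fin s → ZMod 2) = 1 := rfl
    rw [this, map_one, Module.End.one_apply]
  rw [Finset.sum_eq_single (0 : Fin s → ZMod 2)] at h
  · rw [if_pos rfl, Rat.cast_one, one_smul, h0] at h
    exact h
  · intro x _ hx
    rw [if_neg hx, Rat.cast_zero, zero_smul]
  · intro hx
    exact absurd (Finset.mem_univ _) hx

end Pool.Agent.Results.MP_1c689d_ag.DoubleCoverTowers
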