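import Mathlib
import Pool.Agent.Q69.GH.Surf

/-!
# The generalised Hodge conjecture for the product of a K3 surface with another variety

Let `X` be a K3 surface, or a surface with `p_g = 1` and `q = 0`, or a cubic fourfold, or any variety
whose rational cohomology is the sum of a Hodge structure `T` of K3 type, in degree `2 + 2 τ` and of
coniveau `τ` (`τ = 0` for surfaces, `τ = 1` for cubic fourfolds), and of classes of cycles `e k` of
codimension `κ k`, one of them, `e k0`, the unit class. Let `r` be the rank of `T`, and `ω` the period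
vector in a rational basis of `T` which is orthogonal for the intersection form, `ω i0 = 1`.

Let `Y` be ANY smooth projective variety; `H(Y) = ℚ ^ v`, in a basis of classes of degrees `deg b`, and
`A` is its Hodge operator (multiplication by `p - q` on `H^(p,q)(Y)`).

Suppose that `r ≠ 4`, that `T` has no other endomorphisms than the rational numbers, and that ONE of
the periods `ω i` of `X` does not lie in a field `K` which contains the entries of `A`; or, more
generally, that one entry of the Hodge operator of `T` is not a rational linear combination of the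
entries of `A`. Then

1. every rational sub-Hodge structure `V` of `T ⊗ H(Y)` is `T ⊗ W` for a sub-Hodge structure `W` of
   `H(Y)`; the types `(p, q)` of `V` satisfy `|p - q| ≤ e + 2` if and only if those of `W` satisfy
   `|p - q| ≤ e`;
2. the generalised Hodge conjecture (Grothendieck) in all degrees and coniveaus `≤ C` holds for
   `X × Y` if and only if it holds for `Y`. For `C = 1` this is the question of `MP_1c689d_ag`, also
   for all varieties `Z` dominated by `X × Y`: the cohomology of `Z` is a sub-Hodge structure of the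
   cohomology of (a blow-up of) `X × Y`;
3. the generalised Hodge conjecture in all degrees and coniveaus holds for `X × Y` if `Y` is a curve
   or a surface.

The first part of the proof is due to helper263 (`Pool.Agent.Q263.K3`, hand-in
`MP_e12fcd_ag.OnePeriodOutside`, where it is applied to Hodge classes): here the Lie algebra of the
matrices which preserve a given sub-Hodge structure takes the place of the Lie algebra of the matrices
which kill all Hodge classes.
-/

set_option autoImplicit false

namespace Pool.Agent.Results.MP_1c689d_ag.K3TimesVariety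

open Pool.Agent.Q263.K3 Pool.Agent.Q69.GH Kronecker

/-- **The generalised Hodge conjecture for `X × Y`**, `X` of K3 type with `End(T) = ℚ`, one period of
`X` not in a field which contains the entries of the Hodge operator of `Y`. -/
theorem result {r v m : ℕ} (T : K3Type r) {i0 : Fin r} (h0 : T.ω i0 = 1) (hr : r ≠ 4)
    (hE : EndQ T ∨ ∃ s : Finset (Fin r), AlgebraicIndependent ℚ (fun i : s => T.ω i) ∧
      r < r.minFac * (s.card + 1))
    (A : Matrix (Fin v) (Fin v) ℂ)
    (hA : (∃ (K : Subfield ℂ) (i : Fin r), (∀ b c, A b c ∈ K) ∧ T.ω i ∉ K) ∨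
      ∃ a b, T.z a b ∉ Submodule.span ℚ (Set.range fun p : Fin v × Fin v => A p.1 p.2)) :
    -- (1) sub-Hodge structures of `T ⊗ H(Y)`
    (∀ V : Submodule ℚ (Fin r × Fin v → ℚ),
      IsSub (T.z ⊗ₖ (1 : Matrix (Fin v) (Fin v) ℂ) + (1 : Matrix (Fin r) (Fin r) ℂ) ⊗ₖ A) V →
      ∃ W : Submodule ℚ (Fin v → ℚ), IsSub A W ∧ (∀ t, t ∈ V ↔ ∀ p, (fun b => t (p, b)) ∈ W) ∧
        ∀ e : ℤ, Level (T.z ⊗ₖ (1 : Matrix (Fin v) (Fin v) ℂ) +
          (1 : Matrix (Fin r) (Fin r) ℂ) ⊗ₖ A) (e + 2) V ↔ Level A e W) ∧
    -- (2) the generalised Hodge conjecture for `X × Y` and for `Y`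
    (∀ (τ : ℕ) (κ : Fin m → ℕ) (k0 : Fin m) (deg : Fin v → ℕ)
      (NY : ℕ → ℕ → Submodule ℚ (Fin v → ℚ))
      (NXY : ℕ → ℕ → Submodule ℚ ((Fin r ⊕ Fin m) × Fin v → ℚ)),
      Coniveau τ κ k0 deg NY NXY → (∀ C : ℕ,
        (∀ c ≤ C, GHC (hodgeXY T m A) (degXY τ κ deg) NXY c) ↔ ∀ c ≤ C, GHC A deg NY c) ∧
    -- (3) curves and surfaces `Y`
      (IsSurface A deg NY → ∀ c, GHC (hodgeXY T m A) (degXY τ κ deg) NXY c)) := by
  have hE' : EndQ T := by
    rcases hE with h | ⟨s, hs, h⟩
    · exact h
    · exact endQ_of_indep T h0 s hs h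
  obtain ⟨a, b, hab⟩ : ∃ a b, T.z a b ∉
      Submodule.span ℚ (Set.range fun p : Fin v × Fin v => A p.1 p.2) := by
    rcases hA with ⟨K, i, hK, hi⟩ | h
    · exact exists_entry_span T h0 A K hK hi
    · exact h
  refine ⟨fun V hV => ?_, fun τ κ k0 deg NY NXY h => ⟨fun C => ⟨fun hX c hc => ?_, fun hY => ?_⟩,
    fun hs c => ?_⟩⟩
  · obtain ⟨W, h1, -, h2, h3⟩ := exists_factor hE' hr hab hV
    exact ⟨W, h1, h2, h3⟩
  · exact ghc_Y_of_XY h (hX c hc)
  · exact ghc_XY_of_Y hE' hr hab h hY
  · exact ghc_XY_of_Y hE' hr hab h (fun c' _ => ghc_surface h.zero hs c') c le_rfl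

end Pool.Agent.Results.MP_1c689d_ag.K3TimesVariety
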