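import Pool.Agent.Q145.GN

/-!
# Coniveau one for all quotients of powers of abelian varieties by finite groups of integer matrices

Let `A` be any principally polarized abelian variety of dimension `g`, with period matrix `Z` (every complex abelian
variety is isogenous to a principally polarized one), and let `G` be a set of integer `n × n` matrices, for example a
finite subgroup of `GL_n(ℤ)`; each of them acts on `A ^ n`, on `H_1(A ^ n, ℚ)` and on the tangent space.

If every `G`-invariant holomorphic `i`-form on `A ^ n` is zero, then every `G`-invariant class in `H^i(A ^ n, ℚ)` is a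
sum of products `B ∧ η` of divisor classes `B` on `A ^ n` with classes `η ∈ H^{i-2}(A ^ n, ℚ)`; so it restricts to
zero on the complement of a divisor.

For a finite group `G` and a smooth projective variety `Y` birational to `A ^ n / G` the space of the `G`-invariant
holomorphic `i`-forms on `A ^ n` is `H^0(Y, Ω^i)`, and the restriction of `H^i(Y, ℚ)` to a small open set injects into
the restriction of `H^i(A ^ n, ℚ)^G`: the statement of the problem holds for `Y`.  (The elements of `G` may also
involve translations, which act trivially on the cohomology.)  For the symmetric group `S_{n+1}` acting on the lattice `A_n` and `g = 2` the variety `Y` can be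
taken to be the generalized Kummer variety of `A`.

Definitions used: `Pool.Agent.W437.HC.perPow Z n`: the inclusion of `H_1(A ^ n, ℚ)` into the tangent space;
`Pool.Agent.W546.GHC.divisorProducts per i 1`: the products `B ∧ η` with a Hodge class `B` of degree two.
-/

set_option autoImplicit false

namespace Pool.Agent.Results.MP_1c689d_ag.QuotientsOfPowers

open Pool.Agent.H194R3.CM Pool.Agent.W437.HC Pool.Agent.W546.GHC Pool.Agent.Q145.GN Pool.Agent.Q63.PF

/-- The rational cohomology in degree `i` of the `n`-th power of a complex torus of dimension `g`. -/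
abbrev H (g n i : ℕ) : Type := (Fin n → Fin g ⊕ Fin g → ℚ) [⋀^Fin i]→ₗ[ℚ] ℚ

/-- The (translation invariant) holomorphic `i`-forms on the `n`-th power of a complex torus of dimension `g`. -/
abbrev Hol (g n i : ℕ) : Type := (Fin n → Fin g → ℂ) [⋀^Fin i]→ₗ[ℂ] ℂ

/-- The action of an integer matrix `M` on `F ^ n`, for `F = H_1(A, ℚ)` or `F` the tangent space of `A`. -/
def act {n : ℕ} {F : Type*} [AddCommGroup F] (M : Matrix (Fin n) (Fin n) ℤ) (v : Fin n → F) : Fin n → F :=
  fun k => ∑ l, M k l • v l

/-- The form `ψ` on `F ^ n` is invariant under all elements of `G`. -/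
def Invariant {n i : ℕ} {F K : Type*} [AddCommGroup F] (G : Set (Matrix (Fin n) (Fin n) ℤ))
    (ψ : (Fin i → Fin n → F) → K) : Prop :=
  ∀ M ∈ G, ∀ u : Fin i → Fin n → F, ψ (fun k => act M (u k)) = ψ u

/-- the relation `M^* ψ = ψ` -/
noncomputable def rl {n : ℕ} (M : Matrix (Fin n) (Fin n) ℤ) : Matrix (Fin n) (Fin n) ℚ →₀ ℚ :=
  Finsupp.single (M.map (fun x : ℤ => (x : ℚ))) 1 - Finsupp.single 1 1

lemma actv_map {n : ℕ} {F : Type*} [AddCommGroup F] [Module ℚ F] (M : Matrix (Fin n) (Fin n) ℤ) (v : Fin n → F) :
    actv (M.map (fun x : ℤ => (x : ℚ))) v = act M v := by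
  funext k
  unfold actv act
  refine Finset.sum_congr rfl fun l _ => ?_
  rw [Matrix.map_apply]
  exact Int.cast_smul_eq_zsmul ℚ (M k l) (v l)

lemma actv_one {n : ℕ} {F : Type*} [AddCommGroup F] [Module ℚ F] (v : Fin n → F) :
    actv (1 : Matrix (Fin n) (Fin n) ℚ) v = v := by
  funext k
  unfold actv
  rw [Finset.sum_eq_single k]
  · rw [Matrix.one_apply_eq, one_smul]
  · intro b _ hb
    rw [Matrix.one_apply_ne (Ne.symm hb), zero_smul]
  · intro h
    exact absurd (Finset.mem_univ _) h

lemma rel_iff {n i : ℕ} {F K : Type*} [AddCommGroup F] [Module ℚ F] [AddCommGroup K] [Module ℚ K]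
    (M : Matrix (Fin n) (Fin n) ℤ) (ψ : (Fin i → Fin n → F) → K) :
    Pool.Agent.Q145.GN.Rel (rl M) ψ ↔ ∀ u, ψ (fun k => act M (u k)) = ψ u := by
  unfold Pool.Agent.Q145.GN.Rel rl
  refine forall_congr' fun u => ?_
  have e : ∀ (N : Matrix (Fin n) (Fin n) ℚ), ((Finsupp.single N (1 : ℚ)).sum fun M c => c • ψ fun k => actv M (u k)) =
      ψ fun k => actv N (u k) := fun N => by
    rw [Finsupp.sum_single_index (by rw [zero_smul]), one_smul]
  rw [Finsupp.sum_sub_index (fun a b₁ b₂ => sub_smul b₁ b₂ _), e, e, sub_eq_zero]
  simp only [actv_map, actv_one]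

/-- The form of type `(i, 0)` is complex multilinear. -/
noncomputable def PsiC {g n i N : ℕ} (m : PI g → Fin N) (f : H g n i) : Hol g n i where
  toFun := PsiA i m f
  map_update_add' := by
    intro _ u k x y
    have := (PsiA i m f).map_update_add u k x y
    convert this using 3
  map_update_smul' := by
    intro inst u k c x
    have hi : inst = instDecidableEqFin i := Subsingleton.elim _ _
    subst hi
    rw [PsiA_apply, PsiA_apply, Finset.smul_sum]
    refine Finset.sum_congr rfl fun τ _ => ?_
    split_ifs with hτ
    · rw [Finset.smul_sum]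
      refine Finset.sum_congr rfl fun κ _ => ?_
      have hall : ∀ l, (τ l).isRight = true := by
        intro l
        have h1 : (Finset.univ.filter fun k => ((τ k).isRight = true)) = Finset.univ := by
          rw [← Finset.card_eq_iff_eq_univ, Fintype.card_fin]
          exact hτ
        have h2 := Finset.mem_univ l
        rw [← h1, Finset.mem_filter] at h2
        exact h2.2
      have h1 : ∀ l, rho (κ l) (τ l) (Function.update u k (c • x) l) =
          (if l = k then c else 1) * rho (κ l) (τ l) (Function.update u k x l) := by
        intro l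
        by_cases hl : l = k
        · subst hl
          rw [Function.update_self, Function.update_self, if_pos rfl]
          have h2 := hall l
          rcases hτl : τ l with b | b
          · rw [hτl] at h2
            simp at h2
          · rw [rho_inr, rho_inr]
            simp
        · rw [Function.update_of_ne hl, Function.update_of_ne hl, if_neg hl, one_mul]
      rw [Finset.prod_congr rfl fun l _ => h1 l, Finset.prod_mul_distrib]
      simp only [Finset.prod_ite_eq', Finset.mem_univ, if_true, smul_eq_mul]
      ring
    · rw [smul_zero]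
  map_eq_zero_of_eq' := fun u x y h hxy => (PsiA i m f).map_eq_zero_of_eq u h hxy

/-- **Coniveau one for all quotients of powers of abelian varieties by finite groups of integer matrices.** -/
theorem result {g : ℕ} {Z : Matrix (Fin g) (Fin g) ℂ} (hZ : Z.transpose = Z) (hpos : (imM Z).PosDef) (n i : ℕ)
    (G : Set (Matrix (Fin n) (Fin n) ℤ))
    (h : ∀ ω : Hol g n i, Invariant G (fun u => ω u) → ω = 0)
    (f : H g n i) (hf : Invariant G (fun v => f v)) :
    f ∈ Submodule.span ℚ (divisorProducts (perPow Z n) i 1) := by
  refine VN_le hZ hpos n i 1 ?_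
  intro m r hr
  have h1 : nr (fun k => (r k).2) ≤ i := by
    unfold nr
    exact (Finset.card_le_univ _).trans (by rw [Fintype.card_fin])
  have h2 : nr (fun k => (r k).2) = (Finset.univ.filter fun k => ((r k).2.isRight = true)).card := rfl
  have h3 : nr (fun k => (r k).2) = i := by omega
  have h4 : PsiC m f = 0 := by
    refine h _ fun M hM => ?_
    have h5 : Pool.Agent.Q145.GN.Rel (rl M) (fun v => f v) := (rel_iff M _).2 (hf M hM)
    have h6 := PsiA_rel i m f (rl M) h5
    exact (rel_iff M _).1 h6
  have h5 : PsiA i m f = 0 := by
    ext u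
    have h6 := congrArg (fun ω : Hol g n i => ω u) h4
    exact h6
  exact val_eq_zero i m f h5 (fun k => (r k).1) (fun k => (r k).2) h3

end Pool.Agent.Results.MP_1c689d_ag.QuotientsOfPowers
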